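import Mathlib

set_option autoImplicit false

namespace Pool.Agent.Results.MP_c7e24e_co.Counterexample

open Finset SimpleGraph

section defs
variable {n : ℕ} (G : SimpleGraph (Fin n))

/-- Connected, at least three vertices, no cut vertex. -/
def Biconnected : Prop := G.Connected ∧ 3 ≤ n ∧ ∀ v, (G.induce {v}ᶜ).Connected

/-- `P` is a connected `k`-partition of `G` that is balanced with slack `s`. -/
def BCP (k : ℕ) (s : ℝ) (P : Finset (Finset (Fin n))) : Prop :=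
  (∀ v, ∃! U, U ∈ P ∧ v ∈ U) ∧ P.card = k ∧
    ∀ U ∈ P, (G.induce (U : Set (Fin n))).Connected ∧ |(U.card : ℝ) - n / k| ≤ s

/-- `P` and `Q` are balanced partitions that differ by one recombination move. -/
def Move (k : ℕ) (s : ℝ) (P Q : Finset (Finset (Fin n))) : Prop :=
  BCP G k s P ∧ BCP G k s Q ∧ P ≠ Q ∧ ∃ A ∈ P, ∃ B ∈ P, ∃ C ∈ Q, ∃ D ∈ Q,
    A ≠ B ∧ C ≠ D ∧ A ∪ B = C ∪ D ∧ P \ {A, B} = Q \ {C, D}

lemma conn_of (U : Set (Fin n)) (rk : Fin n → ℕ) (r : Fin n) (hr : r ∈ U)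
    (h : ∀ x ∈ U, x = r ∨ ∃ y ∈ U, G.Adj x y ∧ rk y < rk x) : (G.induce U).Connected := by
  have key : ∀ m, ∀ x (hx : x ∈ U), rk x < m → (G.induce U).Reachable ⟨r, hr⟩ ⟨x, hx⟩ := by
    intro m
    induction m with
    | zero => intro x _ h; omega
    | succ m ih =>
      intro x hx hm
      rcases h x hx with rfl | ⟨y, hy, ha, hlt⟩
      · rfl
      · exact (ih y hy (by omega)).trans (Adj.reachable (show (G.induce U).Adj ⟨y, hy⟩ ⟨x, hx⟩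
          from ha.symm))
  rw [connected_iff_exists_forall_reachable]
  exact ⟨⟨r, hr⟩, fun x => key _ x.1 x.2 (Nat.lt_succ_self _)⟩

lemma closed {U : Finset (Fin n)} (hU : (G.induce (U : Set (Fin n))).Connected) {a : Fin n}
    (ha : a ∈ U) (S : Finset (Fin n)) (haS : a ∈ S)
    (h : ∀ x ∈ S, ∀ y ∈ U, G.Adj x y → y ∈ S) : U ⊆ S := by
  intro z hz
  obtain ⟨p⟩ := hU.preconnected ⟨a, ha⟩ ⟨z, hz⟩
  by_contra hn
  obtain ⟨d, -, h1, h2⟩ := p.exists_boundary_dart {x | x.1 ∈ S} haS hn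
  exact h2 (h _ h1 _ d.snd.2 d.adj)

end defs

def adjB (x y : ℕ) : Bool :=
  (x < 12 && y < 12 && ((x + 1) % 12 == y)) || (x == 0 && y == 12) || (x == 6 && y == 13) ||
    ((x == 12 || x == 13) && 14 ≤ y)

def G0 : SimpleGraph (Fin 30) where
  Adj x y := adjB x y = true ∨ adjB y x = true
  symm := ⟨fun _ _ h => Or.symm h⟩
  loopless := ⟨by decide +kernel⟩

instance : DecidableRel G0.Adj := fun x y =>
  inferInstanceAs (Decidable (adjB x y = true ∨ adjB y x = true))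

def tab : List (List ℕ) := [
  [0, 0, 1, 2, 3, 4, 5, 6, 7, 8, 9, 10, 8, 6, 7, 7, 7, 7, 7, 7, 7, 7, 7, 7, 7, 7, 7, 7, 7, 7],
  [0, 0, 8, 7, 6, 5, 4, 5, 4, 3, 2, 1, 1, 3, 2, 2, 2, 2, 2, 2, 2, 2, 2, 2, 2, 2, 2, 2, 2, 2],
  [0, 1, 0, 7, 6, 5, 4, 5, 4, 3, 2, 1, 1, 3, 2, 2, 2, 2, 2, 2, 2, 2, 2, 2, 2, 2, 2, 2, 2, 2],
  [0, 1, 2, 0, 6, 5, 4, 5, 4, 3, 2, 1, 1, 3, 2, 2, 2, 2, 2, 2, 2, 2, 2, 2, 2, 2, 2, 2, 2, 2],
  [0, 1, 2, 3, 0, 5, 4, 5, 4, 3, 2, 1, 1, 3, 2, 2, 2, 2, 2, 2, 2, 2, 2, 2, 2, 2, 2, 2, 2, 2],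
  [0, 1, 2, 3, 4, 0, 4, 5, 4, 3, 2, 1, 1, 3, 2, 2, 2, 2, 2, 2, 2, 2, 2, 2, 2, 2, 2, 2, 2, 2],
  [0, 1, 2, 3, 4, 5, 0, 5, 4, 3, 2, 1, 1, 3, 2, 2, 2, 2, 2, 2, 2, 2, 2, 2, 2, 2, 2, 2, 2, 2],
  [0, 1, 2, 3, 4, 5, 4, 0, 4, 3, 2, 1, 1, 3, 2, 2, 2, 2, 2, 2, 2, 2, 2, 2, 2, 2, 2, 2, 2, 2],
  [0, 1, 2, 3, 4, 5, 4, 5, 0, 3, 2, 1, 1, 3, 2, 2, 2, 2, 2, 2, 2, 2, 2, 2, 2, 2, 2, 2, 2, 2],
  [0, 1, 2, 3, 4, 5, 4, 5, 6, 0, 2, 1, 1, 3, 2, 2, 2, 2, 2, 2, 2, 2, 2, 2, 2, 2, 2, 2, 2, 2],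
  [0, 1, 2, 3, 4, 5, 4, 5, 6, 7, 0, 1, 1, 3, 2, 2, 2, 2, 2, 2, 2, 2, 2, 2, 2, 2, 2, 2, 2, 2],
  [0, 1, 2, 3, 4, 5, 4, 5, 6, 7, 8, 0, 1, 3, 2, 2, 2, 2, 2, 2, 2, 2, 2, 2, 2, 2, 2, 2, 2, 2],
  [0, 1, 2, 3, 4, 5, 6, 5, 4, 3, 2, 1, 0, 7, 8, 8, 8, 8, 8, 8, 8, 8, 8, 8, 8, 8, 8, 8, 8, 8],
  [0, 1, 2, 3, 4, 5, 6, 5, 4, 3, 2, 1, 1, 0, 2, 2, 2, 2, 2, 2, 2, 2, 2, 2, 2, 2, 2, 2, 2, 2],
  [0, 1, 2, 3, 4, 5, 4, 5, 4, 3, 2, 1, 1, 3, 0, 2, 2, 2, 2, 2, 2, 2, 2, 2, 2, 2, 2, 2, 2, 2],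
  [0, 1, 2, 3, 4, 5, 4, 5, 4, 3, 2, 1, 1, 3, 2, 0, 2, 2, 2, 2, 2, 2, 2, 2, 2, 2, 2, 2, 2, 2],
  [0, 1, 2, 3, 4, 5, 4, 5, 4, 3, 2, 1, 1, 3, 2, 2, 0, 2, 2, 2, 2, 2, 2, 2, 2, 2, 2, 2, 2, 2],
  [0, 1, 2, 3, 4, 5, 4, 5, 4, 3, 2, 1, 1, 3, 2, 2, 2, 0, 2, 2, 2, 2, 2, 2, 2, 2, 2, 2, 2, 2],
  [0, 1, 2, 3, 4, 5, 4, 5, 4, 3, 2, 1, 1, 3, 2, 2, 2, 2, 0, 2, 2, 2, 2, 2, 2, 2, 2, 2, 2, 2],
  [0, 1, 2, 3, 4, 5, 4, 5, 4, 3, 2, 1, 1, 3, 2, 2, 2, 2, 2, 0, 2, 2, 2, 2, 2, 2, 2, 2, 2, 2],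
  [0, 1, 2, 3, 4, 5, 4, 5, 4, 3, 2, 1, 1, 3, 2, 2, 2, 2, 2, 2, 0, 2, 2, 2, 2, 2, 2, 2, 2, 2],
  [0, 1, 2, 3, 4, 5, 4, 5, 4, 3, 2, 1, 1, 3, 2, 2, 2, 2, 2, 2, 2, 0, 2, 2, 2, 2, 2, 2, 2, 2],
  [0, 1, 2, 3, 4, 5, 4, 5, 4, 3, 2, 1, 1, 3, 2, 2, 2, 2, 2, 2, 2, 2, 0, 2, 2, 2, 2, 2, 2, 2],
  [0, 1, 2, 3, 4, 5, 4, 5, 4, 3, 2, 1, 1, 3, 2, 2, 2, 2, 2, 2, 2, 2, 2, 0, 2, 2, 2, 2, 2, 2],
  [0, 1, 2, 3, 4, 5, 4, 5, 4, 3, 2, 1, 1, 3, 2, 2, 2, 2, 2, 2, 2, 2, 2, 2, 0, 2, 2, 2, 2, 2],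
  [0, 1, 2, 3, 4, 5, 4, 5, 4, 3, 2, 1, 1, 3, 2, 2, 2, 2, 2, 2, 2, 2, 2, 2, 2, 0, 2, 2, 2, 2],
  [0, 1, 2, 3, 4, 5, 4, 5, 4, 3, 2, 1, 1, 3, 2, 2, 2, 2, 2, 2, 2, 2, 2, 2, 2, 2, 0, 2, 2, 2],
  [0, 1, 2, 3, 4, 5, 4, 5, 4, 3, 2, 1, 1, 3, 2, 2, 2, 2, 2, 2, 2, 2, 2, 2, 2, 2, 2, 0, 2, 2],
  [0, 1, 2, 3, 4, 5, 4, 5, 4, 3, 2, 1, 1, 3, 2, 2, 2, 2, 2, 2, 2, 2, 2, 2, 2, 2, 2, 2, 0, 2],
  [0, 1, 2, 3, 4, 5, 4, 5, 4, 3, 2, 1, 1, 3, 2, 2, 2, 2, 2, 2, 2, 2, 2, 2, 2, 2, 2, 2, 2, 0]]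

lemma bic : Biconnected G0 := by
  refine ⟨?_, by norm_num, fun v => ?_⟩
  · rw [← (induceUnivIso G0).connected_iff]
    refine conn_of G0 _ (fun x => [0, 1, 2, 3, 4, 5, 4, 5, 4, 3, 2, 1, 1, 3, 2, 2, 2, 2, 2, 2, 2, 2, 2, 2, 2, 2, 2, 2, 2, 2].getD x 0) 0 trivial ?_
    simp only [Set.mem_univ, true_and, forall_true_left]
    decide +kernel
  · refine conn_of G0 _ (fun x => (tab.getD v []).getD x 0) (if v = 0 then 1 else 0) ?_ ?_
    · simp only [Set.mem_compl_iff, Set.mem_singleton_iff]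
      revert v
      decide +kernel
    · simp only [Set.mem_compl_iff, Set.mem_singleton_iff]
      revert v
      decide +kernel

def w (x : Fin 30) : ℤ := if x.val < 12 then 1 else if x.val < 14 then -8 else 4

lemma wle (S : Finset (Fin 30)) : ∑ x ∈ S, w x ≤ 4 * S.card := by
  have := sum_le_card_nsmul S w 4 (fun x _ => by unfold w; split_ifs <;> omega)
  simpa [mul_comm] using this

lemma part {U : Finset (Fin 30)} (hU : (G0.induce (U : Set (Fin 30))).Connected)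
    (hc : U.card ≤ 4) : ∑ x ∈ U, w x ≤ 4 ∧ (∑ x ∈ U, w x = 4 → ∀ a ∈ U, a.val < 12 →
      U.card = 4 ∧ ∀ x ∈ U, x.val < 12) := by
  by_cases h1 : ∃ h ∈ U, 12 ≤ h.val ∧ h.val < 14
  · obtain ⟨h, hh, h2, h3⟩ := h1
    have e1 := add_sum_erase U w hh
    have e2 := card_erase_add_one hh
    have e3 : w h = -8 := by unfold w; rw [if_neg (by omega), if_pos h3]
    have e4 := wle (U.erase h)
    refine ⟨by omega, fun h4 a ha h5 => ?_⟩
    have ha' : a ∈ U.erase h := mem_erase.2 ⟨by rintro rfl; omega, ha⟩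
    have e5 := add_sum_erase _ w ha'
    have e6 := card_erase_add_one ha'
    have e7 : w a = 1 := by unfold w; rw [if_pos h5]
    have e8 := wle ((U.erase h).erase a)
    omega
  · push Not at h1
    by_cases h2 : ∃ l ∈ U, 14 ≤ l.val
    · obtain ⟨l, hl, h3⟩ := h2
      have hs : U ⊆ {l} := closed G0 hU hl _ (mem_singleton_self _) (by
        intro x hx y hy hxy
        rw [mem_singleton] at hx
        subst hx
        have : ∀ x y : Fin 30, 14 ≤ x.val → G0.Adj x y → 12 ≤ y.val ∧ y.val < 14 := by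
          decide +kernel
        have h4 := this x y h3 hxy
        have := h1 y hy h4.1
        omega)
      have e1 := wle U
      have e2 := card_le_card hs
      rw [card_singleton] at e2
      refine ⟨by omega, fun _ a ha h5 => ?_⟩
      have := mem_singleton.1 (hs ha)
      subst this
      omega
    · push Not at h2
      have h3 : ∀ x ∈ U, x.val < 12 := fun x hx => by
        have := h1 x hx
        have := h2 x hx
        omega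
      have e1 : ∑ x ∈ U, w x = U.card := by
        rw [sum_congr rfl fun x hx => (show w x = 1 by unfold w; rw [if_pos (h3 x hx)])]
        simp
      exact ⟨by omega, fun h _ _ _ => ⟨by omega, h3⟩⟩

lemma struct {P : Finset (Finset (Fin 30))} (hP : BCP G0 15 2 P) :
    ∀ U ∈ P, ∀ a ∈ U, a.val < 12 → U.card = 4 ∧ ∀ x ∈ U, x.val < 12 := by
  obtain ⟨h1, h2, h3⟩ := hP
  have hc : ∀ U ∈ P, U.card ≤ 4 := by
    intro U hU
    have := (abs_le.1 (h3 U hU).2).2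
    have h4 : (U.card : ℝ) ≤ 4 := by push_cast at this; linarith
    exact_mod_cast h4
  have hs : ∑ U ∈ P, ∑ x ∈ U, w x = ∑ x, w x := by
    rw [← sum_biUnion]
    · congr 1
      refine eq_univ_of_forall fun v => ?_
      obtain ⟨U, hU, -⟩ := h1 v
      exact mem_biUnion.2 ⟨U, hU.1, hU.2⟩
    · intro U hU V hV hne
      refine disjoint_left.2 fun v h4 h5 => hne ?_
      exact (h1 v).unique ⟨hU, h4⟩ ⟨hV, h5⟩
  rw [show ∑ x, w x = 60 by decide +kernel] at hs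
  intro U hU
  refine (part (h3 U hU).1 (hc U hU)).2 ?_
  by_contra hne
  have := sum_lt_sum (s := P) (g := fun _ => (4 : ℤ))
    (fun V hV => (part (h3 V hV).1 (hc V hV)).1)
    ⟨U, hU, lt_of_le_of_ne (part (h3 U hU).1 (hc U hU)).1 hne⟩
  rw [hs, sum_const, h2] at this
  simp at this

lemma arc {P : Finset (Finset (Fin 30))} (hP : BCP G0 15 2 P) (X : Finset (Fin 30)) (hX : X ∈ P)
    (p a b c d : Fin 30) (h0 : p ∈ X ∧ a ∉ X ∧ a.val < 12 ∧ ({a, b, c, d} : Finset _).card = 4)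
    (H : ∀ y, (G0.Adj a y → y = p ∨ y = b ∨ 12 ≤ y.val) ∧
      (G0.Adj b y → y = a ∨ y = c ∨ 12 ≤ y.val) ∧ (G0.Adj c y → y = b ∨ y = d ∨ 12 ≤ y.val)) :
    ({a, b, c, d} : Finset _) ∈ P := by
  obtain ⟨U, ⟨hU, ha⟩, -⟩ := hP.1 a
  obtain ⟨h4, h12⟩ := struct hP U hU a ha h0.2.2.1
  have hp : p ∉ U := fun h => h0.2.1 ((hP.1 p).unique ⟨hU, h⟩ ⟨hX, h0.1⟩ ▸ ha)
  have hcon := (hP.2.2 U hU).1
  have hb : b ∈ U := by
    by_contra hb
    have := card_le_card (closed G0 hcon ha {a} (by simp) (by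
      intro x hx y hy hxy
      rw [mem_singleton] at hx
      subst hx
      have := h12 y hy
      rcases (H y).1 hxy with rfl | rfl | h
      · exact absurd hy hp
      · exact absurd hy hb
      · omega))
    rw [card_singleton] at this
    omega
  have hc : c ∈ U := by
    by_contra hc
    have := card_le_card (closed G0 hcon ha {a, b} (by simp) (by
      intro x hx y hy hxy
      have := h12 y hy
      simp only [mem_insert, mem_singleton] at hx ⊢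
      rcases hx with rfl | rfl
      · rcases (H y).1 hxy with rfl | rfl | h
        · exact absurd hy hp
        · simp
        · omega
      · rcases (H y).2.1 hxy with rfl | rfl | h
        · simp
        · exact absurd hy hc
        · omega))
    have := card_le_two (a := a) (b := b)
    omega
  have hd : d ∈ U := by
    by_contra hd
    have := card_le_card (closed G0 hcon ha {a, b, c} (by simp) (by
      intro x hx y hy hxy
      have := h12 y hy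
      simp only [mem_insert, mem_singleton] at hx ⊢
      rcases hx with rfl | rfl | rfl
      · rcases (H y).1 hxy with rfl | rfl | h
        · exact absurd hy hp
        · simp
        · omega
      · rcases (H y).2.1 hxy with rfl | rfl | h
        · simp
        · simp
        · omega
      · rcases (H y).2.2 hxy with rfl | rfl | h
        · simp
        · exact absurd hy hd
        · omega))
    have := card_le_three (a := a) (b := b) (c := c)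
    omega
  have : ({a, b, c, d} : Finset _) = U := eq_of_subset_of_card_le
    (by simp [insert_subset_iff, ha, hb, hc, hd]) (by rw [h4, h0.2.2.2])
  rwa [this]

lemma n1 {P : Finset (Finset (Fin 30))} (hP : BCP G0 15 2 P) (h : {0, 1, 2, 3} ∈ P) :
    {4, 5, 6, 7} ∈ P := arc hP _ h 3 4 5 6 7 (by decide +kernel) (by decide +kernel)
lemma n2 {P : Finset (Finset (Fin 30))} (hP : BCP G0 15 2 P) (h : {4, 5, 6, 7} ∈ P) :
    {8, 9, 10, 11} ∈ P := arc hP _ h 7 8 9 10 11 (by decide +kernel) (by decide +kernel)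
lemma n3 {P : Finset (Finset (Fin 30))} (hP : BCP G0 15 2 P) (h : {8, 9, 10, 11} ∈ P) :
    {0, 1, 2, 3} ∈ P := arc hP _ h 11 0 1 2 3 (by decide +kernel) (by decide +kernel)

lemma inv {P Q : Finset (Finset (Fin 30))} (h : Move G0 15 2 P Q) (h1 : {0, 1, 2, 3} ∈ P) :
    {0, 1, 2, 3} ∈ Q := by
  obtain ⟨hP, hQ, -, A, -, B, -, C, -, D, -, -, -, -, he⟩ := h
  have h2 := n1 hP h1
  have h3 := n2 hP h2
  have key : ∀ X ∈ P, X ∉ ({A, B} : Finset _) → X ∈ Q := fun X hX hn =>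
    (mem_sdiff.1 (he ▸ mem_sdiff.2 ⟨hX, hn⟩)).1
  by_contra hn
  have g1 : _ := not_not.1 (mt (key _ h1) hn)
  have g2 : _ := not_not.1 (mt (fun h => n3 hQ (n2 hQ (key _ h2 h))) hn)
  have g3 : _ := not_not.1 (mt (fun h => n3 hQ (key _ h3 h)) hn)
  have hs : ({{0, 1, 2, 3}, {4, 5, 6, 7}, {8, 9, 10, 11}} : Finset (Finset (Fin 30))) ⊆ {A, B} := by
    intro X hX
    simp only [mem_insert, mem_singleton] at hX
    rcases hX with rfl | rfl | rfl <;> assumption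
  have h4 := (card_le_card hs).trans card_le_two
  exact absurd h4 (by decide +kernel)

def cls (L : List ℕ) (j : ℕ) : Finset (Fin 30) := univ.filter fun x => L.getD x 0 = j

def rk (x : Fin 30) : ℕ := if x = 0 then 12 else x

lemma bcp (L : List ℕ) (rk : Fin 30 → ℕ) (h1 : ∀ v : Fin 30, L.getD v 0 < 15)
    (h2 : ∀ j < 15, (cls L j).card ≤ 4 ∧ ∃ r : Fin 30, L.getD r 0 = j ∧ ∀ x : Fin 30,
      L.getD x 0 = j → x = r ∨ ∃ y : Fin 30, L.getD y 0 = j ∧ G0.Adj x y ∧ rk y < rk x) :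
    BCP G0 15 2 ((range 15).image (cls L)) := by
  have hm : ∀ j x, x ∈ cls L j ↔ L.getD x 0 = j := fun j x => by
    rw [cls, mem_filter]; exact and_iff_right (mem_univ _)
  refine ⟨fun v => ⟨cls L (L.getD v 0), ⟨mem_image_of_mem _ (mem_range.2 (h1 v)),
    (hm _ _).2 rfl⟩, ?_⟩, ?_, ?_⟩
  · rintro U ⟨hU, hv⟩
    obtain ⟨u, -, rfl⟩ := mem_image.1 hU
    rw [(hm _ _).1 hv]
  · rw [card_image_of_injOn, card_range]
    intro i hi j _ hij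
    obtain ⟨-, r, hr, -⟩ := h2 i (mem_range.1 hi)
    have := (hm i r).2 hr
    rw [hij, hm] at this
    rw [← hr, this]
  · intro U hU
    obtain ⟨j, hj, rfl⟩ := mem_image.1 hU
    obtain ⟨h3, r, hr, h4⟩ := h2 j (mem_range.1 hj)
    refine ⟨conn_of G0 _ rk r ((hm _ _).2 hr) fun x hx => ?_, ?_⟩
    · rcases h4 x ((hm _ _).1 hx) with h | ⟨y, hy, h⟩
      · exact Or.inl h
      · exact Or.inr ⟨y, (hm _ _).2 hy, h⟩
    have h5 : ((cls L j).card : ℝ) ≤ 4 := by exact_mod_cast h3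
    have h6 : (0 : ℝ) ≤ (cls L j).card := by positivity
    rw [abs_le]
    push_cast
    constructor <;> linarith

def L1 : List ℕ := [0, 0, 0, 0, 1, 1, 1, 1, 2, 2, 2, 2, 3, 4, 3, 3, 3, 4, 4, 4, 5, 6, 7, 8, 9, 10, 11, 12, 13, 14]
def L2 : List ℕ := [2, 0, 0, 0, 0, 1, 1, 1, 1, 2, 2, 2, 3, 4, 3, 3, 3, 4, 4, 4, 5, 6, 7, 8, 9, 10, 11, 12, 13, 14]

theorem result : ¬ ∀ (n : ℕ) (G : SimpleGraph (Fin n)) (k : ℕ) (s : ℝ), Biconnected G →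
    1 ≤ k → k ≤ n → k ∣ n → (n : ℝ) / k ≤ s → ∀ P Q, BCP G k s P → BCP G k s Q →
    Relation.ReflTransGen (Move G k s) P Q := by
  intro h
  have h1 := h 30 G0 15 2 bic (by norm_num) (by norm_num) (by norm_num) (by norm_num) _ _
    (bcp L1 (fun x => x) (by decide +kernel) (by decide +kernel))
    (bcp L2 rk (by decide +kernel) (by decide +kernel))
  have h2 : ∀ Q, Relation.ReflTransGen (Move G0 15 2) ((range 15).image (cls L1)) Q →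
      {0, 1, 2, 3} ∈ Q := by
    intro Q hQ
    induction hQ with
    | refl => exact mem_image.2 ⟨0, by simp, by decide +kernel⟩
    | tail _ hm ih => exact inv hm ih
  obtain ⟨j, -, hj⟩ := mem_image.1 (h2 _ h1)
  have h3 : (0 : Fin 30) ∈ cls L2 j := by rw [hj]; simp
  have h4 : (1 : Fin 30) ∈ cls L2 j := by rw [hj]; simp
  have h5 := (mem_filter.1 h3).2.trans (mem_filter.1 h4).2.symm
  exact absurd h5 (by decide +kernel)

end Pool.Agent.Results.MP_c7e24e_co.Counterexample
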